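import Pool.Agent.Helper44.TOT.Defs

/-!
# TOT-S9: crude sieve for many forms
-/

set_option autoImplicit false

open Filter Finset

namespace Pool.Agent.Helper87.TOT

open Pool.Agent.Helper44.TOT

noncomputable section

/-- the absolute value of the determinant of two forms -/
def dd (f g : ℕ × ℕ) : ℕ := (((f.1 * g.2 : ℕ) : ℤ) - ((g.1 * f.2 : ℕ) : ℤ)).natAbs

/-- the modulus of the sieve -/
def QQ (Fs : Finset (ℕ × ℕ)) : ℕ :=
  primorial Fs.card * (∏ f ∈ Fs, f.1) * ∏ fg ∈ Fs.offDiag, dd fg.1 fg.2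

theorem dd_ne_zero {f g : ℕ × ℕ} (h : f.1 * g.2 ≠ g.1 * f.2) : dd f g ≠ 0 := by
  unfold dd
  rw [Int.natAbs_ne_zero, sub_ne_zero]
  exact_mod_cast h

theorem dd_le {f g : ℕ × ℕ} {x : ℕ} (hf1 : f.1 ≤ x ^ 2) (hf2 : f.2 ≤ x ^ 2) (hg1 : g.1 ≤ x ^ 2)
    (hg2 : g.2 ≤ x ^ 2) : dd f g ≤ x ^ 4 := by
  have h1 : f.1 * g.2 ≤ x ^ 4 := by
    calc f.1 * g.2 ≤ x ^ 2 * x ^ 2 := Nat.mul_le_mul hf1 hg2
      _ = x ^ 4 := by ring
  have h2 : g.1 * f.2 ≤ x ^ 4 := by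
    calc g.1 * f.2 ≤ x ^ 2 * x ^ 2 := Nat.mul_le_mul hg1 hf2
      _ = x ^ 4 := by ring
  unfold dd
  generalize f.1 * g.2 = u at h1
  generalize g.1 * f.2 = v at h2
  generalize x ^ 4 = w at h1 h2
  omega

theorem dvd_dd {f g : ℕ × ℕ} {l : ℕ} (h : f.1 * g.2 ≡ g.1 * f.2 [MOD l]) : l ∣ dd f g := by
  have h1 := (Nat.modEq_iff_dvd.1 h.symm)
  unfold dd
  exact Int.natCast_dvd.1 h1

theorem QQ_pos {Fs : Finset (ℕ × ℕ)} (h1 : ∀ f ∈ Fs, 1 ≤ f.1)
    (h2 : ∀ f ∈ Fs, ∀ g ∈ Fs, f ≠ g → f.1 * g.2 ≠ g.1 * f.2) : 1 ≤ QQ Fs := by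
  unfold QQ
  refine Nat.succ_le_of_lt (Nat.mul_pos (Nat.mul_pos (primorial_pos _) ?_) ?_)
  · exact Finset.prod_pos fun f hf => h1 f hf
  · refine Finset.prod_pos fun fg hfg => ?_
    rw [Finset.mem_offDiag] at hfg
    exact Nat.pos_of_ne_zero (dd_ne_zero (h2 _ hfg.1 _ hfg.2.1 hfg.2.2))

theorem QQ_le {Fs : Finset (ℕ × ℕ)} {x : ℕ} (hx : 1 ≤ x)
    (h1 : ∀ f ∈ Fs, 1 ≤ f.1 ∧ f.1 ≤ x ^ 2 ∧ f.2 ≤ x ^ 2) :
    QQ Fs ≤ 4 ^ Fs.card * (x ^ 2) ^ Fs.card * (x ^ 4) ^ (Fs.card ^ 2) := by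
  unfold QQ
  refine Nat.mul_le_mul (Nat.mul_le_mul (primorial_le_four_pow _) ?_) ?_
  · exact Finset.prod_le_pow_card _ _ _ fun f hf => (h1 f hf).2.1
  · refine (Finset.prod_le_pow_card _ _ (x ^ 4) fun fg hfg => ?_).trans ?_
    · rw [Finset.mem_offDiag] at hfg
      exact dd_le (h1 _ hfg.1).2.1 (h1 _ hfg.1).2.2 (h1 _ hfg.2.1).2.1 (h1 _ hfg.2.1).2.2
    · refine Nat.pow_le_pow_right (Nat.pow_pos hx) ?_
      rw [Finset.offDiag_card, sq]
      exact Nat.sub_le _ _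

theorem log_QQ_le {Fs : Finset (ℕ × ℕ)} {x : ℕ} (hx : 4 ≤ x)
    (h1 : ∀ f ∈ Fs, 1 ≤ f.1 ∧ f.1 ≤ x ^ 2 ∧ f.2 ≤ x ^ 2) (hQ : 1 ≤ QQ Fs) :
    Real.log (QQ Fs) ≤ 8 * (Fs.card : ℝ) ^ 2 * Real.log x := by
  have hx0 : (0 : ℝ) < x := by
    have : 0 < x := by omega
    exact_mod_cast this
  have h2 : (QQ Fs : ℝ) ≤ (4 : ℝ) ^ Fs.card * ((x : ℝ) ^ 2) ^ Fs.card *
      ((x : ℝ) ^ 4) ^ (Fs.card ^ 2) := by
    exact_mod_cast QQ_le (by omega) h1
  have h3 := Real.log_le_log (by exact_mod_cast hQ) h2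
  rw [Real.log_mul (by positivity) (by positivity), Real.log_mul (by positivity) (by positivity),
    Real.log_pow, Real.log_pow, Real.log_pow, Real.log_pow, Real.log_pow] at h3
  push_cast at h3
  have h4 : Real.log 4 ≤ Real.log x := Real.log_le_log (by norm_num) (by exact_mod_cast hx)
  have h5 : 0 ≤ Real.log 4 := Real.log_nonneg (by norm_num)
  have hk : (Fs.card : ℝ) ≤ (Fs.card : ℝ) ^ 2 := by
    have : Fs.card ≤ Fs.card ^ 2 := Nat.le_self_pow (by norm_num) _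
    exact_mod_cast this
  have hk0 : (0 : ℝ) ≤ Fs.card := Nat.cast_nonneg _
  have hL : 0 ≤ Real.log x := h5.trans h4
  have e1 : (Fs.card : ℝ) * Real.log 4 ≤ (Fs.card : ℝ) ^ 2 * Real.log x :=
    mul_le_mul hk h4 h5 (by positivity)
  have e2 : (Fs.card : ℝ) * (2 * Real.log x) ≤ (Fs.card : ℝ) ^ 2 * (2 * Real.log x) :=
    mul_le_mul_of_nonneg_right hk (by positivity)
  have e3 : 0 ≤ (Fs.card : ℝ) ^ 2 * Real.log x := by positivity
  linarith

/-- eventual facts -/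
theorem eventual (A : ℕ) (K : ℝ) : ∃ X0 : ℕ, ∀ x : ℕ, X0 ≤ x →
    2 ≤ ll x ∧ K ≤ ll x ∧ 8 * (ll x) ^ (2 * A) ≤ Real.log x ∧ 100000 ≤ Real.log x ∧ 4 ≤ x := by
  have hcast : Tendsto (fun x : ℕ => (x : ℝ)) atTop atTop := tendsto_natCast_atTop_atTop
  have hL : Tendsto (fun x : ℕ => Real.log (x : ℝ)) atTop atTop :=
    Real.tendsto_log_atTop.comp hcast
  have hll : Tendsto (fun x : ℕ => ll x) atTop atTop := Real.tendsto_log_atTop.comp hL
  have h1 : ∀ᶠ L : ℝ in atTop, 8 * (Real.log L) ^ (2 * A) ≤ L := by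
    have h := (Real.isLittleO_pow_log_id_atTop (n := 2 * A)).bound (c := 1 / 8) (by norm_num)
    filter_upwards [h, eventually_ge_atTop (0 : ℝ)] with L hL hL0
    simp only [id, Real.norm_eq_abs, abs_of_nonneg hL0] at hL
    have := le_abs_self ((Real.log L) ^ (2 * A))
    linarith
  have h2 : ∀ᶠ x : ℕ in atTop, 8 * (ll x) ^ (2 * A) ≤ Real.log x := hL.eventually h1
  have h3 := hll.eventually_ge_atTop 2
  have h4 := hll.eventually_ge_atTop K
  have h5 := hL.eventually_ge_atTop 100000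
  have h6 := eventually_ge_atTop (4 : ℕ)
  obtain ⟨X0, hX0⟩ := eventually_atTop.1 (h3.and (h4.and (h2.and (h5.and h6))))
  exact ⟨X0, hX0⟩

theorem pS (hSF : SieveForms) (hTL : TotLow) : PS := by
  intro A
  obtain ⟨C0, hC0⟩ := hTL
  obtain ⟨X0, hX0⟩ := eventual A (186 * C0 * 3 ^ C0)
  refine ⟨A + C0 + 1, X0, ?_⟩
  intro x hx Fs X S hne hcard hco hdet hX hS
  obtain ⟨hs2, hsK, hsA, hLbig, hx4⟩ := hX0 x hx
  set s : ℝ := ll x with hs
  set L : ℝ := Real.log x with hL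
  have hsL : s = Real.log L := rfl
  have hL0 : 0 < L := by linarith
  have hx0 : (0 : ℝ) < x := by
    have : 0 < x := by omega
    exact_mod_cast this
  have hx1 : (1 : ℝ) ≤ x := by
    have : 1 ≤ x := by omega
    exact_mod_cast this
  set k : ℕ := Fs.card with hk
  have hk1 : 1 ≤ k := Finset.card_pos.2 hne
  -- the sieving level
  set z : ℕ := ⌊(x : ℝ) ^ ((1 : ℝ) / 61)⌋₊ with hz
  have hxz : (x : ℝ) ^ ((1 : ℝ) / 61) = Real.exp (L / 61) := by
    rw [Real.rpow_def_of_pos hx0]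
    congr 1
    ring
  have hbig : (4 : ℝ) ≤ (x : ℝ) ^ ((1 : ℝ) / 61) := by
    rw [hxz]
    have := Real.add_one_le_exp (L / 61)
    linarith
  have hz_le : (z : ℝ) ≤ (x : ℝ) ^ ((1 : ℝ) / 61) := Nat.floor_le (by positivity)
  have hz_gt : (x : ℝ) ^ ((1 : ℝ) / 61) < (z : ℝ) + 1 := Nat.lt_floor_add_one _
  have hz2 : 2 ≤ z := by
    have : (2 : ℝ) < (z : ℝ) := by linarith
    have : 2 < z := by exact_mod_cast this
    omega
  have hlogz : L / 62 ≤ Real.log z := by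
    have h1 : Real.exp (L / 61) / 2 ≤ z := by
      rw [← hxz]
      linarith
    have h2 := Real.log_le_log (by positivity) h1
    rw [Real.log_div (Real.exp_pos _).ne' two_ne_zero, Real.log_exp] at h2
    have h3 : Real.log 2 ≤ 1 := by
      have := Real.log_two_lt_d9
      linarith
    linarith
  have hlogz0 : 0 < Real.log z := lt_of_lt_of_le (by positivity) hlogz
  have hX1 : (1 : ℝ) ≤ X := (Real.one_le_rpow hx1 (by norm_num)).trans hX
  have hz3 : (z : ℝ) ^ 3 ≤ X := by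
    refine le_trans ?_ hX
    calc (z : ℝ) ^ 3 ≤ ((x : ℝ) ^ ((1 : ℝ) / 61)) ^ 3 := by gcongr
      _ = (x : ℝ) ^ ((3 : ℝ) / 61) := by
          rw [← Real.rpow_natCast, ← Real.rpow_mul hx0.le]
          norm_num
      _ ≤ (x : ℝ) ^ ((1 : ℝ) / 20) := Real.rpow_le_rpow_of_exponent_le hx1 (by norm_num)
  -- the modulus
  have hQ1 : 1 ≤ QQ Fs := QQ_pos (fun f hf => (hco f hf).1) hdet
  have hlogQ : Real.log (QQ Fs) ≤ L ^ 2 := by
    refine (log_QQ_le hx4 hco hQ1).trans ?_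
    have h1 : (Fs.card : ℝ) ^ 2 ≤ (s ^ A) ^ 2 := by gcongr
    calc 8 * (Fs.card : ℝ) ^ 2 * L ≤ 8 * (s ^ A) ^ 2 * L := by gcongr
      _ = (8 * s ^ (2 * A)) * L := by
          rw [← pow_mul, mul_comm A 2]
      _ ≤ L * L := by gcongr
      _ = L ^ 2 := by ring
  have hQφ : (QQ Fs : ℝ) / (QQ Fs).totient ≤ C0 * (3 * s) ^ C0 := by
    refine (hC0 _ hQ1).trans ?_
    have hlogQ0 : 0 ≤ Real.log (QQ Fs) := Real.log_nonneg (by exact_mod_cast hQ1)
    have h1 : 0 ≤ Real.log (1 + Real.log (QQ Fs)) := Real.log_nonneg (by linarith)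
    have h2 : 1 + Real.log (1 + Real.log (QQ Fs)) ≤ 3 * s := by
      have h3 : 1 + Real.log (QQ Fs) ≤ 2 * L ^ 2 := by nlinarith
      have h4 := Real.log_le_log (by linarith) h3
      rw [Real.log_mul two_ne_zero (by positivity), Real.log_pow, ← hsL] at h4
      push_cast at h4
      have h5 : Real.log 2 ≤ 1 := by
        have := Real.log_two_lt_d9
        linarith
      linarith
    gcongr
  have hφ0 : (0 : ℝ) < (QQ Fs).totient := by
    exact_mod_cast Nat.totient_pos.2 hQ1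
  -- apply the sieve
  have hsieve := hSF Fs (QQ Fs) (X + 1) z hne hQ1 hz2
    (by
      intro l hl hlk
      refine dvd_mul_of_dvd_left (dvd_mul_of_dvd_left ?_ _) _
      unfold primorial
      refine Finset.dvd_prod_of_mem _ ?_
      rw [Finset.mem_filter, Finset.mem_range]
      exact ⟨Nat.lt_succ_of_le hlk, hl⟩)
    (by
      intro f hf l _ hlf
      refine dvd_mul_of_dvd_left (dvd_mul_of_dvd_right ?_ _) _
      exact hlf.trans (Finset.dvd_prod_of_mem _ hf))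
    (by
      intro f hf g hg hfg l _ hl
      refine dvd_mul_of_dvd_right ?_ _
      refine (dvd_dd hl).trans
        (Finset.dvd_prod_of_mem (fun fg : (ℕ × ℕ) × (ℕ × ℕ) => dd fg.1 fg.2)
          (a := (f, g)) ?_)
      rw [Finset.mem_offDiag]
      exact ⟨hf, hg, hfg⟩)
    S
    (by
      intro n hn
      obtain ⟨hnX, hnF⟩ := hS n hn
      refine ⟨Nat.lt_succ_of_le hnX, fun f hf l hl hlz hdvd => ?_⟩
      obtain ⟨hpr, hge⟩ := hnF f hf
      have hle : l = f.1 * n + f.2 := (Nat.prime_dvd_prime_iff_eq hl hpr).1 hdvd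
      have h1 : (l : ℝ) ≤ (x : ℝ) ^ ((1 : ℝ) / 61) := (by exact_mod_cast hlz : (l : ℝ) ≤ z).trans hz_le
      have h2 : (x : ℝ) ^ ((1 : ℝ) / 61) < (x : ℝ) ^ ((1 : ℝ) / 60) := by
        refine Real.rpow_lt_rpow_of_exponent_lt ?_ (by norm_num)
        have : 1 < x := by omega
        exact_mod_cast this
      rw [← hle] at hge
      linarith)
  -- estimate
  have hbase : (Fs.card : ℝ) * (QQ Fs : ℝ) / (((QQ Fs).totient : ℝ) * Real.log z) ≤
      62 * C0 * 3 ^ C0 * s ^ (A + C0) / L := by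
    have h1 : (Fs.card : ℝ) * (QQ Fs : ℝ) / (((QQ Fs).totient : ℝ) * Real.log z) =
        (Fs.card : ℝ) * ((QQ Fs : ℝ) / (QQ Fs).totient) / Real.log z := by
      field_simp
    rw [h1]
    calc (Fs.card : ℝ) * ((QQ Fs : ℝ) / (QQ Fs).totient) / Real.log z
        ≤ s ^ A * (C0 * (3 * s) ^ C0) / (L / 62) := by
          gcongr
      _ = 62 * C0 * 3 ^ C0 * s ^ (A + C0) / L := by
          rw [mul_pow, pow_add]
          field_simp
  have hbase0 : 0 ≤ (Fs.card : ℝ) * (QQ Fs : ℝ) / (((QQ Fs).totient : ℝ) * Real.log z) := by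
    positivity
  set t : ℝ := 62 * C0 * 3 ^ C0 * s ^ (A + C0) / L with ht
  have ht0 : 0 ≤ t := hbase0.trans hbase
  have hs0 : 0 < s := by linarith
  calc (S.card : ℝ) ≤ (((X + 1 : ℕ) : ℝ) + (z : ℝ) ^ 3) *
        ((Fs.card : ℝ) * (QQ Fs : ℝ) / (((QQ Fs).totient : ℝ) * Real.log z)) ^ Fs.card := hsieve
    _ ≤ (3 * X) * t ^ Fs.card := by
        refine mul_le_mul ?_ (pow_le_pow_left₀ hbase0 hbase _) (by positivity) (by positivity)
        push_cast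
        linarith
    _ = X * (3 * t ^ Fs.card) := by ring
    _ ≤ X * (3 ^ Fs.card * t ^ Fs.card) := by
        have : (3 : ℝ) ≤ 3 ^ Fs.card := by
          calc (3 : ℝ) = 3 ^ 1 := by norm_num
            _ ≤ 3 ^ Fs.card := pow_le_pow_right₀ (by norm_num) hk1
        gcongr
    _ = X * (3 * t) ^ Fs.card := by rw [mul_pow]
    _ ≤ X * (s ^ (A + C0 + 1) / L) ^ Fs.card := by
        have h1 : 3 * t ≤ s ^ (A + C0 + 1) / L := by
          have h2 : 3 * t = (186 * C0 * 3 ^ C0) * s ^ (A + C0) / L := by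
            rw [ht]
            ring
          rw [h2, pow_succ, mul_comm (s ^ (A + C0)) s]
          gcongr
        gcongr

end

end Pool.Agent.Helper87.TOT
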