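import Pool.Agent.Helper44.TOT.Defs

/-!
# TOT-T4: two level primes with small product
-/

set_option autoImplicit false

open Filter Finset

namespace Pool.Agent.Helper87.TOT

open Pool.Agent.Helper44.TOT

noncomputable section

theorem mul_le_four_totient {l1 l2 : ℕ} (h1 : l1.Prime) (h2 : l2.Prime) (h : l1 ≠ l2) :
    (l1 : ℝ) * l2 ≤ 4 * ((l1 * l2).totient : ℝ) := by
  have hc : Nat.Coprime l1 l2 := (Nat.coprime_primes h1 h2).2 h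
  rw [Nat.totient_mul hc, Nat.totient_prime h1, Nat.totient_prime h2]
  have e1 : l1 ≤ 2 * (l1 - 1) := by
    have := h1.two_le
    omega
  have e2 : l2 ≤ 2 * (l2 - 1) := by
    have := h2.two_le
    omega
  have e3 : l1 * l2 ≤ 4 * ((l1 - 1) * (l2 - 1)) := by
    calc l1 * l2 ≤ (2 * (l1 - 1)) * (2 * (l2 - 1)) := Nat.mul_le_mul e1 e2
      _ = 4 * ((l1 - 1) * (l2 - 1)) := by ring
  exact_mod_cast e3

theorem TH.X_nonneg {x A A' C M1 : ℕ} {N : Finset ℕ} {X D : ℝ} {a : ℕ} {C0 ρ ι uB : ℝ}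
    {b : ℕ → ℝ} {z δ : ℝ} (h : TH x A A' C M1 N X D a C0 ρ ι uB b z δ) : 0 ≤ X := by
  refine le_trans ?_ h.leX
  positivity

theorem TH.delta_le {x A A' C M1 : ℕ} {N : Finset ℕ} {X D : ℝ} {a : ℕ} {C0 ρ ι uB : ℝ}
    {b : ℕ → ℝ} {z δ : ℝ} (hc : Cst a C0 ρ ι) (h : TH x A A' C M1 N X D a C0 ρ ι uB b z δ) :
    δ ≤ 1 / 100 := by
  refine h.hδ'.trans ?_
  have ha : (1 : ℝ) ≤ a := by
    have := hc.ha
    exact_mod_cast (by omega : 1 ≤ a)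
  have hz : (1 : ℝ) ≤ (4 * z) ^ a := one_le_pow₀ (by linarith [h.hz])
  apply one_div_le_one_div_of_le (by norm_num)
  nlinarith

theorem typeB1 (hLM : LM) : TypeB1 := by
  classical
  intro a C0 ρ ι hc A A' C
  obtain ⟨X0, hX0⟩ := hLM a C0 ρ ι hc A'
  refine ⟨max X0 2, ?_⟩
  intro x M1 N X D uB b z δ S hx hT hSN hS
  have hxX0 : X0 ≤ x := (le_max_left _ _).trans hx
  have hx2 : 2 ≤ x := (le_max_right _ _).trans hx
  have hx1 : (1 : ℝ) ≤ x := by exact_mod_cast (by omega : 1 ≤ x)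
  have hxpos : (0 : ℝ) < x := by linarith
  have hX : 0 ≤ X := TH.X_nonneg hT
  have hδ := TH.delta_le hc hT
  have hD := hT.D0
  have hz := hT.hz
  have hzδ : 0 < z - δ := by linarith
  have hz2 : 0 < z / 2 := by linarith
  have hC0 : 0 ≤ C0 := by linarith [hc.hC0]
  -- the two families of primes
  let P1 : Finset ℕ := (range (x + 1)).filter fun q =>
    q.Prime ∧ (x : ℝ) ^ uB ≤ q ∧ (q : ℝ) ≤ (x : ℝ) ^ ((9 : ℝ) / 10) ∧ z - δ ≤ b q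
  let P2 : Finset ℕ := (range (x + 1)).filter fun q =>
    q.Prime ∧ (x : ℝ) ^ uB ≤ q ∧ (q : ℝ) ≤ (x : ℝ) ^ ((9 : ℝ) / 10) ∧ z / 2 ≤ b q
  let P1s : Finset ℕ := P1.filter fun q => (q : ℝ) ≤ (x : ℝ) ^ ((1 : ℝ) / 2)
  let P2s : Finset ℕ := P2.filter fun q => (q : ℝ) ≤ (x : ℝ) ^ ((1 : ℝ) / 2)
  have m1 : ∑ q ∈ P1, (1 : ℝ) / q ≤ 16 * C0 * Real.exp (-(((1 - ι) * (z - δ)) ^ a)) :=
    (hX0 x uB b hxX0 hT.huB hT.tail (z - δ) P1 hzδ).2 fun q hq => (mem_filter.1 hq).2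
  have m2 : ∑ q ∈ P2, (1 : ℝ) / q ≤ 16 * C0 * Real.exp (-(((1 - ι) * (z / 2)) ^ a)) :=
    (hX0 x uB b hxX0 hT.huB hT.tail (z / 2) P2 hz2).2 fun q hq => (mem_filter.1 hq).2
  have m1s : ∑ q ∈ P1s, (1 : ℝ) / q ≤
      16 * C0 * Real.exp (-(((1 - ι) * (z - δ)) ^ a) - (ρ / 2) ^ a) :=
    (hX0 x uB b hxX0 hT.huB hT.tail (z - δ) P1s hzδ).1 fun q hq => by
      obtain ⟨hq1, hq2⟩ := mem_filter.1 hq
      obtain ⟨-, hp, hB, -, hb⟩ := mem_filter.1 hq1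
      exact ⟨hp, hB, hq2, hb⟩
  have m2s : ∑ q ∈ P2s, (1 : ℝ) / q ≤
      16 * C0 * Real.exp (-(((1 - ι) * (z / 2)) ^ a) - (ρ / 2) ^ a) :=
    (hX0 x uB b hxX0 hT.huB hT.tail (z / 2) P2s hz2).1 fun q hq => by
      obtain ⟨hq1, hq2⟩ := mem_filter.1 hq
      obtain ⟨-, hp, hB, -, hb⟩ := mem_filter.1 hq1
      exact ⟨hp, hB, hq2, hb⟩
  have n1 : 0 ≤ ∑ q ∈ P1, (1 : ℝ) / q := Finset.sum_nonneg fun q _ => by positivity
  have n2 : 0 ≤ ∑ q ∈ P2, (1 : ℝ) / q := Finset.sum_nonneg fun q _ => by positivity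
  have n1s : 0 ≤ ∑ q ∈ P1s, (1 : ℝ) / q := Finset.sum_nonneg fun q _ => by positivity
  have n2s : 0 ≤ ∑ q ∈ P2s, (1 : ℝ) / q := Finset.sum_nonneg fun q _ => by positivity
  -- the pairs
  let Pr : Finset (ℕ × ℕ) := (P1 ×ˢ P2).filter fun p =>
    p.1 ≠ p.2 ∧ ((p.1 : ℝ) * p.2) ≤ (x : ℝ) ^ ((9 : ℝ) / 10)
  have hcover : S ⊆ Pr.biUnion fun p => S.filter fun n => p.1 * p.2 ∣ n := by
    intro n hn
    obtain ⟨l1, l2, hl1, hl2, hne, hd1, hd2, hB1, hB2, hprod, hb1, hb2⟩ := hS n hn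
    have hl1' : (1 : ℝ) ≤ l1 := by exact_mod_cast hl1.one_lt.le
    have hl2' : (1 : ℝ) ≤ l2 := by exact_mod_cast hl2.one_lt.le
    have h1 : (l1 : ℝ) ≤ (x : ℝ) ^ ((9 : ℝ) / 10) := by nlinarith
    have h2 : (l2 : ℝ) ≤ (x : ℝ) ^ ((9 : ℝ) / 10) := by nlinarith
    have h3 : (x : ℝ) ^ ((9 : ℝ) / 10) ≤ x := by
      calc (x : ℝ) ^ ((9 : ℝ) / 10) ≤ (x : ℝ) ^ (1 : ℝ) :=
            Real.rpow_le_rpow_of_exponent_le hx1 (by norm_num)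
        _ = x := Real.rpow_one _
    have h1' : l1 ≤ x := by exact_mod_cast h1.trans h3
    have h2' : l2 ≤ x := by exact_mod_cast h2.trans h3
    rw [mem_biUnion]
    refine ⟨(l1, l2), ?_, ?_⟩
    · refine mem_filter.2 ⟨mem_product.2 ⟨?_, ?_⟩, hne, hprod⟩
      · exact mem_filter.2 ⟨mem_range.2 (by omega), hl1, hB1, h1, hb1⟩
      · exact mem_filter.2 ⟨mem_range.2 (by omega), hl2, hB2, h2, hb2⟩
    · exact mem_filter.2 ⟨hn, ((Nat.coprime_primes hl1 hl2).2 hne).mul_dvd_of_dvd_of_dvd hd1 hd2⟩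
  have hone : ∀ p ∈ Pr, (((S.filter fun n => p.1 * p.2 ∣ n)).card : ℝ) ≤
      4 * D * X * ((1 : ℝ) / p.1 * ((1 : ℝ) / p.2)) := by
    intro p hp
    obtain ⟨hp1, hne, hle⟩ := mem_filter.1 hp
    obtain ⟨hpa, hpb⟩ := mem_product.1 hp1
    have hl1 : p.1.Prime := (mem_filter.1 hpa).2.1
    have hl2 : p.2.Prime := (mem_filter.1 hpb).2.1
    have h1 := hT.adm.divs (p.1 * p.2) (S.filter fun n => p.1 * p.2 ∣ n)
      (Nat.mul_pos hl1.pos hl2.pos) (by push_cast; exact hle)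
      ((filter_subset _ _).trans hSN) (fun n hn => (mem_filter.1 hn).2)
    refine h1.trans ?_
    have h2 := mul_le_four_totient hl1 hl2 hne
    have hp1pos : (0 : ℝ) < p.1 := by exact_mod_cast hl1.pos
    have hp2pos : (0 : ℝ) < p.2 := by exact_mod_cast hl2.pos
    have hφ : (0 : ℝ) < ((p.1 * p.2).totient : ℝ) := by
      exact_mod_cast Nat.totient_pos.2 (Nat.mul_pos hl1.pos hl2.pos)
    rw [div_le_iff₀ hφ]
    have h3 : 4 * D * X * ((1 : ℝ) / p.1 * ((1 : ℝ) / p.2)) * ((p.1 * p.2).totient : ℝ) =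
        D * X * ((4 * ((p.1 * p.2).totient : ℝ)) / ((p.1 : ℝ) * p.2)) := by
      field_simp
    rw [h3]
    have h4 : 1 ≤ (4 * ((p.1 * p.2).totient : ℝ)) / ((p.1 : ℝ) * p.2) := by
      rw [one_le_div (by positivity)]
      exact h2
    have h5 : 0 ≤ D * X := mul_nonneg hD hX
    nlinarith
  have hsub : Pr ⊆ (P1s ×ˢ P2) ∪ (P1 ×ˢ P2s) := by
    intro p hp
    obtain ⟨hp1, hne, hle⟩ := mem_filter.1 hp
    obtain ⟨hpa, hpb⟩ := mem_product.1 hp1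
    rw [mem_union, mem_product, mem_product]
    by_cases h : (p.1 : ℝ) ≤ (x : ℝ) ^ ((1 : ℝ) / 2)
    · exact Or.inl ⟨mem_filter.2 ⟨hpa, h⟩, hpb⟩
    · refine Or.inr ⟨hpa, mem_filter.2 ⟨hpb, ?_⟩⟩
      by_contra h'
      push Not at h h'
      have h1 : (x : ℝ) ^ ((1 : ℝ) / 2) * (x : ℝ) ^ ((1 : ℝ) / 2) < (p.1 : ℝ) * p.2 :=
        mul_lt_mul'' h h' (by positivity) (by positivity)
      rw [← Real.rpow_add hxpos] at h1
      have h2 : (x : ℝ) ^ ((9 : ℝ) / 10) ≤ (x : ℝ) ^ ((1 : ℝ) / 2 + 1 / 2) :=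
        Real.rpow_le_rpow_of_exponent_le hx1 (by norm_num)
      linarith
  have hprod : ∀ U V : Finset ℕ, ∑ p ∈ U ×ˢ V, ((1 : ℝ) / p.1 * ((1 : ℝ) / p.2)) =
      (∑ q ∈ U, (1 : ℝ) / q) * ∑ q ∈ V, (1 : ℝ) / q := by
    intro U V
    rw [Finset.sum_product, Finset.sum_mul_sum]
  have hsum : ∑ p ∈ Pr, ((1 : ℝ) / p.1 * ((1 : ℝ) / p.2)) ≤
      (∑ q ∈ P1s, (1 : ℝ) / q) * (∑ q ∈ P2, (1 : ℝ) / q) +
      (∑ q ∈ P1, (1 : ℝ) / q) * ∑ q ∈ P2s, (1 : ℝ) / q := by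
    rw [← hprod, ← hprod]
    have hnn : ∀ p : ℕ × ℕ, 0 ≤ ((1 : ℝ) / p.1 * ((1 : ℝ) / p.2)) := fun p => by positivity
    refine (Finset.sum_le_sum_of_subset_of_nonneg hsub fun p _ _ => hnn p).trans ?_
    have h1 := Finset.sum_union_inter (s₁ := P1s ×ˢ P2) (s₂ := P1 ×ˢ P2s)
      (f := fun p : ℕ × ℕ => ((1 : ℝ) / p.1 * ((1 : ℝ) / p.2)))
    have h2 : 0 ≤ ∑ p ∈ (P1s ×ˢ P2) ∩ (P1 ×ˢ P2s), ((1 : ℝ) / p.1 * ((1 : ℝ) / p.2)) :=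
      Finset.sum_nonneg fun p _ => hnn p
    linarith
  have hEz : ∀ u v w : ℝ, Real.exp (-u - w) * Real.exp (-v) = Real.exp (-u - v - w) := by
    intro u v w
    rw [← Real.exp_add]
    congr 1
    ring
  have hfinal : (∑ q ∈ P1s, (1 : ℝ) / q) * (∑ q ∈ P2, (1 : ℝ) / q) +
      (∑ q ∈ P1, (1 : ℝ) / q) * (∑ q ∈ P2s, (1 : ℝ) / q) ≤ 512 * C0 ^ 2 * Ez a ρ ι δ z := by
    have h1 : (∑ q ∈ P1s, (1 : ℝ) / q) * (∑ q ∈ P2, (1 : ℝ) / q) ≤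
        (16 * C0 * Real.exp (-(((1 - ι) * (z - δ)) ^ a) - (ρ / 2) ^ a)) *
          (16 * C0 * Real.exp (-(((1 - ι) * (z / 2)) ^ a))) :=
      mul_le_mul m1s m2 n2 (by positivity)
    have h2 : (∑ q ∈ P1, (1 : ℝ) / q) * (∑ q ∈ P2s, (1 : ℝ) / q) ≤
        (16 * C0 * Real.exp (-(((1 - ι) * (z - δ)) ^ a))) *
          (16 * C0 * Real.exp (-(((1 - ι) * (z / 2)) ^ a) - (ρ / 2) ^ a)) :=
      mul_le_mul m1 m2s n2s (by positivity)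
    have e1 : (16 * C0 * Real.exp (-(((1 - ι) * (z - δ)) ^ a) - (ρ / 2) ^ a)) *
          (16 * C0 * Real.exp (-(((1 - ι) * (z / 2)) ^ a))) = 256 * C0 ^ 2 * Ez a ρ ι δ z := by
      unfold Ez
      rw [← hEz]
      ring
    have e2 : (16 * C0 * Real.exp (-(((1 - ι) * (z - δ)) ^ a))) *
          (16 * C0 * Real.exp (-(((1 - ι) * (z / 2)) ^ a) - (ρ / 2) ^ a)) =
        256 * C0 ^ 2 * Ez a ρ ι δ z := by
      unfold Ez
      have e3 : -(((1 - ι) * (z - δ)) ^ a) - ((1 - ι) * (z / 2)) ^ a - (ρ / 2) ^ a =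
        -(((1 - ι) * (z / 2)) ^ a) - ((1 - ι) * (z - δ)) ^ a - (ρ / 2) ^ a := by ring
      rw [e3, ← hEz]
      ring
    linarith
  calc (S.card : ℝ) ≤ ((Pr.biUnion fun p => S.filter fun n => p.1 * p.2 ∣ n).card : ℝ) := by
        exact_mod_cast card_le_card hcover
    _ ≤ ∑ p ∈ Pr, (((S.filter fun n => p.1 * p.2 ∣ n)).card : ℝ) := by
        exact_mod_cast card_biUnion_le
    _ ≤ ∑ p ∈ Pr, 4 * D * X * ((1 : ℝ) / p.1 * ((1 : ℝ) / p.2)) := Finset.sum_le_sum hone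
    _ = 4 * D * X * ∑ p ∈ Pr, ((1 : ℝ) / p.1 * ((1 : ℝ) / p.2)) := by rw [Finset.mul_sum]
    _ ≤ 4 * D * X * (512 * C0 ^ 2 * Ez a ρ ι δ z) :=
        mul_le_mul_of_nonneg_left (hsum.trans hfinal) (by positivity)
    _ = 2048 * D * X * C0 ^ 2 * Ez a ρ ι δ z := by ring

end

end Pool.Agent.Helper87.TOT
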